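import Pool.Agent.helper87.TR.Spec

/-!
# Row tr:RM (MP_3221a1_ag)
-/

namespace Pool.Agent.helper87.TR

open Polynomial Finset Module FP97
open Pool.Agent.helper97.FP

lemma RM_mem {P : ℂ[X]} {n N : ℕ} (h : P.natDegree ≤ n) (hn : n < N) : P ∈ degreeLT ℂ N := by
  rw [mem_degreeLT]
  refine lt_of_le_of_lt degree_le_natDegree ?_
  exact_mod_cast lt_of_le_of_lt h hn

lemma RM_deg {ι : Type} (a : ι → ℂ) (s : Finset ι) :
    (∏ k ∈ s, (X - C (a k))).natDegree = s.card := by
  have h := natDegree_prod_pow s a (fun _ => 1)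
  simp only [pow_one, Finset.sum_const, smul_eq_mul, mul_one] at h
  exact h

lemma RM_monic {ι : Type} (a : ι → ℂ) (s : Finset ι) : (∏ k ∈ s, (X - C (a k))).Monic :=
  monic_prod_of_monic _ _ fun _ _ => monic_X_sub_C _

lemma RM_eval {ι : Type} (a : ι → ℂ) (s : Finset ι) (k : ι) (hk : k ∈ s) :
    (∏ k ∈ s, (X - C (a k))).eval (a k) = 0 := by
  rw [eval_prod]
  exact Finset.prod_eq_zero hk (by simp)

/-- the polynomial `X ^ m + θ` -/
lemma RM_alpha (m : ℕ) (θ : ℂ) (hθ : 1 + θ ≠ 0) :
    (X ^ m + C θ : ℂ[X]) ≠ 0 ∧ (X ^ m + C θ : ℂ[X]).natDegree = m := by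
  rcases Nat.eq_zero_or_pos m with rfl | hm
  · have h1 : (X ^ 0 + C θ : ℂ[X]) = C (1 + θ) := by simp
    rw [h1]
    exact ⟨C_ne_zero.2 hθ, natDegree_C _⟩
  · exact ⟨(monic_X_pow_add_C θ hm.ne').ne_zero, natDegree_X_pow_add_C⟩

/-- division of `τ` by `α` -/
lemma RM_div (τ α : ℂ[X]) (hτ : τ ≠ 0) (hα : α ≠ 0) :
    α * (τ / α) - (-(τ % α)) = τ ∧
    (α.natDegree ≤ τ.natDegree → (τ / α).natDegree = τ.natDegree - α.natDegree ∧
      (τ % α = 0 ∨ (τ % α).natDegree < α.natDegree)) ∧
    (τ.natDegree < α.natDegree → τ / α = 0 ∧ τ % α = τ) := by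
  have h1 : α * (τ / α) + τ % α = τ := EuclideanDomain.div_add_mod τ α
  refine ⟨by rw [sub_neg_eq_add, h1], fun hle => ⟨?_, ?_⟩, fun hlt => ?_⟩
  · have h2 : degree α ≤ degree τ := by
      rw [degree_eq_natDegree hα, degree_eq_natDegree hτ]
      exact_mod_cast hle
    have h3 := degree_add_div hα h2
    have h4 : τ / α ≠ 0 := by
      intro h0
      rw [h0, degree_zero, degree_eq_natDegree hτ] at h3
      simp at h3
    rw [degree_eq_natDegree hα, degree_eq_natDegree hτ, degree_eq_natDegree h4] at h3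
    have h5 : α.natDegree + (τ / α).natDegree = τ.natDegree := by exact_mod_cast h3
    omega
  · by_cases h0 : τ % α = 0
    · exact Or.inl h0
    · right
      have h2 := degree_mod_lt τ hα
      rw [degree_eq_natDegree hα, degree_eq_natDegree h0] at h2
      exact_mod_cast h2
  · have h2 : degree τ < degree α := by
      rw [degree_eq_natDegree hα, degree_eq_natDegree hτ]
      exact_mod_cast hlt
    have h3 : τ / α = 0 := (Polynomial.div_eq_zero_iff hα).2 h2
    refine ⟨h3, ?_⟩
    rw [h3, mul_zero, zero_add] at h1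
    exact h1

/-- the arithmetic of `mm` -/
lemma RM_mm (δ s w : ℕ) (hw : w ≤ s) (h : w = 0 ∨ δ ≤ s - w) :
    δ ≤ mm δ s w ∧ mm δ s w ≤ s + δ ∧ (s < mm δ s w → mm δ s w = δ) ∧
    (mm δ s w ≤ s → mm δ s w ≤ s + δ - mm δ s w) ∧
    ((mm δ s w = s - w ∧ s + δ - mm δ s w = w + δ) ∨
      (mm δ s w = w + δ ∧ s + δ - mm δ s w = s - w)) := by
  unfold mm
  omega

theorem RM (h : T2_stmt) : RM_stmt := by
  classical
  intro ι a c K K1 δ w θ A ha hK hw hwδ hθ hc1 hc3 m
  obtain ⟨hm1, hm2, hm3, hm4, hm5⟩ := RM_mm δ K1.card w hw hwδ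
  set m0 := mm δ K1.card w with hm0
  set s := K1.card with hs
  obtain ⟨hα0, hαd⟩ := RM_alpha m0 θ hθ
  set α : ℂ[X] := X ^ m0 + C θ with hα
  have hτ1d := RM_deg a K1
  have hτ1m := RM_monic a K1
  have hτ1e := RM_eval a K1
  have hτ3d := RM_deg a (K \ K1)
  have hτ3m := RM_monic a (K \ K1)
  have hτ3e := RM_eval a (K \ K1)
  set τ1 : ℂ[X] := ∏ k ∈ K1, (X - C (a k)) with hτ1
  set τ3 : ℂ[X] := ∏ k ∈ K \ K1, (X - C (a k)) with hτ3
  obtain ⟨hd1, hd2, hd3⟩ := RM_div τ1 α hτ1m.ne_zero hα0
  set z1 := τ1 / α with hz1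
  set z0 := -(τ1 % α) with hz0
  have hcard : (K \ K1).card + s = K.card := by
    rw [hs]; exact Finset.card_sdiff_add_card_eq_card hK
  set t := (K \ K1).card with ht
  rw [hτ1d, hαd] at hd2 hd3
  -- degrees
  have hz1d : z1 = 0 ∨ z1.natDegree + m0 ≤ s := by
    rcases le_or_gt m0 s with h1 | h1
    · right
      have := (hd2 h1).1
      omega
    · left; exact (hd3 h1).1
  have hz0d : z0 = 0 ∨ z0.natDegree ≤ s + δ - m0 := by
    rcases le_or_gt m0 s with h1 | h1
    · rcases (hd2 h1).2 with h2 | h2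
      · left; rw [hz0, h2, neg_zero]
      · right
        have h3 := hm4 h1
        rw [hz0, natDegree_neg]
        omega
    · right
      have h2 := hm3 h1
      rw [hz0, natDegree_neg, (hd3 h1).2, hτ1d]
      omega
  have key : ∀ (P Q : ℂ[X]) (n1 n2 N : ℕ), P.natDegree = n1 → (Q = 0 ∨ Q.natDegree ≤ n2) →
      n1 + n2 < N → P * Q ∈ degreeLT ℂ N := by
    intro P Q n1 n2 N hP hQ hN
    rcases hQ with rfl | hQ
    · rw [mul_zero]; exact zero_mem _
    · exact RM_mem (natDegree_mul_le.trans (Nat.add_le_add hP.le hQ)) hN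
  have hgood : Good a c K δ
      ![![τ3 * α, τ3 * 1, 0], ![τ3 * z0, τ3 * z1, 0], ![τ1 * C A, 0, τ1 * 1]]
      ![t + m0, t + (s + δ - m0), s + 2 * δ] := by
    refine ⟨?_, ?_, ?_⟩
    · intro i
      fin_cases i
      · refine ⟨?_, ?_⟩
        · intro q
          fin_cases q
          · exact key τ3 α t m0 _ hτ3d (Or.inr hαd.le) (by simp)
          · exact key τ3 1 t 0 _ hτ3d (Or.inr (by simp)) (by simp; omega)
          · exact zero_mem _
        · intro k hk
          by_cases hk1 : k ∈ K1
          · refine ⟨τ3.eval (a k), ?_⟩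
            intro q
            rw [hc1 k hk1]
            fin_cases q
            · simp [hα]
            · simp
            · simp
          · refine ⟨0, ?_⟩
            have h0 := hτ3e k (Finset.mem_sdiff.2 ⟨hk, hk1⟩)
            intro q
            fin_cases q
            · simp [h0]
            · simp [h0]
            · simp
      · refine ⟨?_, ?_⟩
        · intro q
          fin_cases q
          · exact key τ3 z0 t (s + δ - m0) _ hτ3d hz0d (by simp)
          · rcases hz1d with h1 | h1
            · rw [h1, mul_zero]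
              exact zero_mem _
            · refine key τ3 z1 t (s - m0) _ hτ3d (Or.inr (by omega)) ?_
              simp
              omega
          · exact zero_mem _
        · intro k hk
          by_cases hk1 : k ∈ K1
          · refine ⟨τ3.eval (a k) * z1.eval (a k), ?_⟩
            have h0 := hτ1e k hk1
            have h1 := congrArg (Polynomial.eval (a k)) hd1
            rw [eval_sub, eval_mul, h0, hα] at h1
            simp only [eval_add, eval_pow, eval_X, eval_C] at h1
            intro q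
            rw [hc1 k hk1]
            fin_cases q
            · simp
              linear_combination (-(τ3.eval (a k))) * h1
            · simp
            · simp
          · refine ⟨0, ?_⟩
            have h0 := hτ3e k (Finset.mem_sdiff.2 ⟨hk, hk1⟩)
            intro q
            fin_cases q
            · simp [h0]
            · simp [h0]
            · simp
      · refine ⟨?_, ?_⟩
        · intro q
          fin_cases q
          · exact key τ1 (C A) s 0 _ hτ1d (Or.inr (by simp)) (by simp)
          · exact zero_mem _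
          · exact key τ1 1 s 0 _ hτ1d (Or.inr (by simp)) (by simp; omega)
        · intro k hk
          by_cases hk1 : k ∈ K1
          · refine ⟨0, ?_⟩
            have h0 := hτ1e k hk1
            intro q
            fin_cases q
            · simp [h0]
            · simp
            · simp [h0]
          · refine ⟨τ1.eval (a k), ?_⟩
            intro q
            rw [hc3 k hk hk1]
            fin_cases q
            · simp
            · simp
            · simp
    · have h1 : (Matrix.of (![![τ3 * α, τ3 * 1, 0], ![τ3 * z0, τ3 * z1, 0],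
          ![τ1 * C A, 0, τ1 * 1]] : Fin 3 → Fin 3 → ℂ[X])).det = (τ3 * τ1) ^ 2 := by
        rw [Matrix.det_fin_three]
        simp
        linear_combination (τ3 ^ 2 * τ1) * hd1
      rw [h1]
      exact pow_ne_zero _ (mul_ne_zero hτ3m.ne_zero hτ1m.ne_zero)
    · show t + m0 + (t + (s + δ - m0)) + (s + 2 * δ) = 3 * δ + 2 * K.card
      omega
  have hfin := (h ι a c K δ ha _ _ hgood).2 m
  rw [hfin]
  show m - (t + m0) + (m - (t + (s + δ - m0))) + (m - (s + 2 * δ)) = _
  rcases hm5 with ⟨h1, h2⟩ | ⟨h1, h2⟩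
  · rw [h2]
    omega
  · rw [h2]
    omega

end Pool.Agent.helper87.TR
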